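import Pool.Agent.Helper8.AC.Norm

/-! AC-14 (MP_981e7e_an): approximation in the space, sliding hump. -/

set_option autoImplicit false

namespace Pool.Agent.Helper67.AC

open Pool.Agent.Helper23.AC

section
variable {X : Type} [NormedAddCommGroup X] [NormedSpace ℝ X]

theorem res_eq_self {E : Set ℕ} {f : Fn} (h : ∀ n ∈ f.support, n ∈ E) : res E f = f := by
  classical
  ext n
  rw [res_apply]
  by_cases hn : n ∈ E
  · rw [if_pos hn]
  · rw [if_neg hn]
    by_contra hc
    exact hn (h n (Finsupp.mem_support_iff.2 (fun e => hc e.symm)))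

theorem res_eq_zero {E : Set ℕ} {f : Fn} (h : ∀ n ∈ f.support, n ∉ E) : res E f = 0 := by
  classical
  ext n
  rw [res_apply]
  by_cases hn : n ∈ E
  · rw [if_pos hn]
    by_contra hc
    exact h n (Finsupp.mem_support_iff.2 hc) hn
  · rw [if_neg hn]; rfl

theorem tendsto_P (M : Model X) (x : X) :
    Filter.Tendsto (fun m => M.P m x) Filter.atTop (nhds x) := by
  rw [Metric.tendsto_atTop]
  intro ε hε
  obtain ⟨u, hu⟩ := M.dense.exists_dist_lt x (show 0 < ε / 2 by positivity)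
  obtain ⟨m0, hm0⟩ : ∃ m0, ∀ n ∈ u.support, n < m0 :=
    ⟨u.support.sup id + 1, fun n hn => Nat.lt_succ_of_le (Finset.le_sup (f := id) hn)⟩
  refine ⟨m0, fun m hm => ?_⟩
  have h1 : M.P m (M.ι u) = M.ι u := by
    rw [M.hP, res_eq_self]
    intro n hn
    exact lt_of_lt_of_le (hm0 n hn) hm
  have h2 : dist (M.P m x) (M.ι u) ≤ dist x (M.ι u) := by
    rw [dist_eq_norm, dist_eq_norm]
    have : M.P m x - M.ι u = M.P m (x - M.ι u) := by rw [map_sub, h1]
    rw [this]
    exact M.normP m _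
  calc dist (M.P m x) x ≤ dist (M.P m x) (M.ι u) + dist (M.ι u) x := dist_triangle _ _ _
    _ < ε / 2 + ε / 2 := by
      rw [dist_comm (M.ι u) x]
      linarith
    _ = ε := by ring

/-- the finite-dimensional subspaces -/
noncomputable def SS (M : Model X) (m : ℕ) : Submodule ℝ X :=
  Submodule.map M.ι (Finsupp.supported ℝ ℝ {n : ℕ | n < m})

instance (m : ℕ) : FiniteDimensional ℝ (Finsupp.supported ℝ ℝ {n : ℕ | n < m}) := by
  have : Finite {n : ℕ | n < m} := (Set.finite_lt_nat m).to_subtype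
  exact Module.Finite.equiv (Finsupp.supportedEquivFinsupp (M := ℝ) (R := ℝ) {n : ℕ | n < m}).symm

instance (M : Model X) (m : ℕ) : FiniteDimensional ℝ (SS M m) := by
  unfold SS
  infer_instance

theorem mem_SS (M : Model X) (m : ℕ) (x : X) : M.P m x ∈ SS M m := by
  have hc : IsClosed {x : X | M.P m x ∈ SS M m} :=
    (Submodule.closed_of_finiteDimensional (SS M m)).preimage (M.P m).continuous
  refine M.dense.induction_on x hc fun u => ?_
  rw [M.hP]
  refine ⟨res {n | n < m} u, ?_, rfl⟩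
  rw [SetLike.mem_coe, Finsupp.mem_supported]
  intro n hn
  exact (res_support _ _ hn).2

theorem exists_P (M : Model X) (m : ℕ) (x : X) :
    ∃ u : Fn, (∀ n ∈ u.support, n < m) ∧ M.P m x = M.ι u := by
  obtain ⟨u, hu, he⟩ := mem_SS M m x
  refine ⟨u, fun n hn => ?_, he.symm⟩
  rw [SetLike.mem_coe, Finsupp.mem_supported] at hu
  exact hu hn

theorem ker_mem_cof (M : Model X) (m : ℕ) : LinearMap.ker (M.P m : X →ₗ[ℝ] X) ∈ Cof X := by
  refine ⟨(M.P m).isClosed_ker, ?_⟩
  have h1 : LinearMap.range (M.P m : X →ₗ[ℝ] X) ≤ SS M m := by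
    rintro _ ⟨x, rfl⟩
    exact mem_SS M m x
  have h2 : FiniteDimensional ℝ (LinearMap.range (M.P m : X →ₗ[ℝ] X)) :=
    Submodule.finiteDimensional_of_le h1
  exact Module.Finite.equiv ((M.P m : X →ₗ[ℝ] X).quotKerEquivRange).symm

theorem iota_injective (M : Model X) : Function.Injective M.ι := by
  rw [← LinearMap.ker_eq_bot, Submodule.eq_bot_iff]
  intro x hx
  by_contra hne
  have h1 := nx_pos hne
  rw [← M.norm_ι, LinearMap.mem_ker.1 hx, norm_zero] at h1
  exact lt_irrefl _ h1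

theorem infinite (M : Model X) : ¬ FiniteDimensional ℝ X := by
  intro h
  have h1 : FiniteDimensional ℝ Fn := FiniteDimensional.of_injective M.ι (iota_injective M)
  have h2 : Finite ℕ := Module.Finite.finite_basis (Finsupp.basisSingleOne (R := ℝ) (ι := ℕ))
  exact not_finite ℕ

theorem P_P (M : Model X) {m m' : ℕ} (h : m ≤ m') (x : X) : M.P m (M.P m' x) = M.P m x := by
  have hc : IsClosed {x : X | M.P m (M.P m' x) = M.P m x} :=
    isClosed_eq ((M.P m).continuous.comp (M.P m').continuous) (M.P m).continuous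
  refine M.dense.induction_on x hc fun u => ?_
  rw [M.hP, M.hP, M.hP]
  congr 1
  classical
  ext n
  rw [res_apply, res_apply, res_apply]
  by_cases hn : n ∈ {n | n < m}
  · rw [if_pos hn, if_pos (show n ∈ {n | n < m'} from lt_of_lt_of_le hn h), if_pos hn]
  · rw [if_neg hn, if_neg hn]

/-- one hump -/
theorem hump (M : Model X) (Y : Submodule ℝ X) (hY : ¬ FiniteDimensional ℝ Y) (m : ℕ) (ε : ℝ)
    (hε : 0 < ε) : ∃ (x : Fn) (y : X) (m' : ℕ), m < m' ∧ y ∈ Y ∧ nx x = 1 ∧
      (∀ n ∈ x.support, m ≤ n ∧ n < m') ∧ ‖y - M.ι x‖ ≤ ε := by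
  -- a vector of `Y` in the kernel of `P m`
  obtain ⟨y0, hy0Y, hy0, hPy0⟩ : ∃ y ∈ Y, y ≠ 0 ∧ M.P m y = 0 := by
    by_contra hc
    push Not at hc
    apply hY
    let f : Y →ₗ[ℝ] SS M m := LinearMap.codRestrict (SS M m)
      ((M.P m : X →ₗ[ℝ] X) ∘ₗ Y.subtype) (fun y => mem_SS M m y)
    refine FiniteDimensional.of_injective f ?_
    rw [← LinearMap.ker_eq_bot, Submodule.eq_bot_iff]
    intro y hy
    by_contra hne
    have h1 : (y : X) ≠ 0 := fun h => hne (Subtype.ext h)
    refine hc y y.2 h1 ?_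
    have h2 := congrArg Subtype.val (LinearMap.mem_ker.1 hy)
    exact h2
  -- normalise
  set y : X := ‖y0‖⁻¹ • y0 with hy
  have hy0n : 0 < ‖y0‖ := norm_pos_iff.2 hy0
  have hyY : y ∈ Y := Y.smul_mem _ hy0Y
  have hyn : ‖y‖ = 1 := by
    rw [hy, norm_smul, norm_inv, norm_norm, inv_mul_cancel₀ hy0n.ne']
  have hPy : M.P m y = 0 := by rw [hy, map_smul, hPy0, smul_zero]
  set δ : ℝ := min (ε / 2) (1 / 2) with hδ
  have hδ0 : 0 < δ := by positivity
  obtain ⟨m1, hm1⟩ := Metric.tendsto_atTop.1 (tendsto_P M y) δ hδ0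
  set m' := max m1 (m + 1) with hm'
  have h1 := hm1 m' (le_max_left _ _)
  have hmm : m < m' := lt_of_lt_of_le (Nat.lt_succ_self m) (le_max_right _ _)
  obtain ⟨v, hv, hve⟩ := exists_P M m' y
  have hv0 : res {n | n < m} v = 0 := by
    by_contra hne
    have h2 := nx_pos hne
    rw [← M.norm_ι, ← M.hP, ← hve, P_P M hmm.le, hPy, norm_zero] at h2
    exact lt_irrefl _ h2
  have hvs : ∀ n ∈ v.support, m ≤ n ∧ n < m' := by
    intro n hn
    refine ⟨?_, hv n hn⟩
    by_contra hlt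
    push Not at hlt
    classical
    have h2 : res {n | n < m} v n = v n := by rw [res_apply, if_pos (show n ∈ {n | n < m} from hlt)]
    rw [hv0] at h2
    exact (Finsupp.mem_support_iff.1 hn) h2.symm
  have hnv : nx v = ‖M.P m' y‖ := by rw [← M.norm_ι, ← hve]
  have hdist : ‖y - M.ι v‖ < δ := by
    rw [← hve, ← dist_eq_norm, dist_comm]; exact h1
  have hnv1 : nx v ≤ 1 := by rw [hnv, ← hyn]; exact M.normP m' y
  have hnv2 : 1 - δ ≤ nx v := by
    have h3 : ‖y‖ - ‖M.ι v‖ ≤ ‖y - M.ι v‖ := norm_sub_norm_le _ _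
    rw [hyn, M.norm_ι] at h3
    linarith
  have hδ2 : δ ≤ 1 / 2 := min_le_right _ _
  have hnv0 : 0 < nx v := by linarith
  refine ⟨(nx v)⁻¹ • v, y, m', hmm, hyY, ?_, ?_, ?_⟩
  · rw [nx_smul, abs_of_pos (inv_pos.2 hnv0), inv_mul_cancel₀ hnv0.ne']
  · intro n hn
    exact hvs n (Finsupp.support_smul hn)
  · have h3 : M.ι ((nx v)⁻¹ • v) = (nx v)⁻¹ • M.ι v := map_smul _ _ _
    have h4 : y - (nx v)⁻¹ • M.ι v = (y - M.ι v) + (1 - (nx v)⁻¹) • M.ι v := by
      rw [sub_smul, one_smul]; abel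
    rw [h3, h4]
    refine (norm_add_le _ _).trans ?_
    rw [norm_smul, M.norm_ι]
    have h5 : ‖1 - (nx v)⁻¹‖ * nx v = 1 - nx v := by
      have h6 : 1 ≤ (nx v)⁻¹ := (one_le_inv₀ hnv0).2 hnv1
      rw [Real.norm_eq_abs, abs_of_nonpos (by linarith)]
      field_simp
      ring
    rw [h5]
    have : δ ≤ ε / 2 := min_le_left _ _
    linarith

/-- sliding hump -/
theorem exists_blocks (M : Model X) (Y : Submodule ℝ X) (hY : ¬ FiniteDimensional ℝ Y)
    (η : ℝ) (hη : 0 < η) :
    ∃ (x : ℕ → Fn) (l r : ℕ → ℕ), Blk x l r ∧ (∀ s, nx (x s) = 1) ∧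
      ∀ u ∈ Submodule.span ℝ (Set.range x), ∃ y ∈ Y, ‖y - M.ι u‖ ≤ η * nx u := by
  classical
  choose X0 Y0 R0 h1 h2 h3 h4 h5 using fun (m : ℕ) (s : ℕ) =>
    hump M Y hY m (η / 2 / 2 ^ s) (by positivity)
  -- the starting points
  obtain ⟨st, hst⟩ : ∃ st : ℕ → ℕ, ∀ s, st (s + 1) = R0 (st s) s :=
    ⟨fun s => Nat.rec 0 (fun s m => R0 m s) s, fun s => rfl⟩
  have hlt : ∀ s, st s < st (s + 1) := fun s => by rw [hst]; exact h1 _ _
  have hmono : StrictMono st := strictMono_nat_of_lt_succ hlt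
  set x : ℕ → Fn := fun s => X0 (st s) s with hx
  have hsupp : ∀ s, ∀ n ∈ (x s).support, st s ≤ n ∧ n ≤ st (s + 1) - 1 := by
    intro s n hn
    have h6 := h4 (st s) s n hn
    have h7 := hlt s
    rw [← hst] at h6
    exact ⟨h6.1, by omega⟩
  have hblk : Blk x st (fun s => st (s + 1) - 1) := by
    refine ⟨fun s => ?_, fun s => ?_, hsupp⟩
    · have := hlt s
      show st s ≤ st (s + 1) - 1
      omega
    · have := hlt s
      show st (s + 1) - 1 < st (s + 1)
      omega
  refine ⟨x, st, fun s => st (s + 1) - 1, hblk, fun s => h3 _ _, ?_⟩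
  intro u hu
  obtain ⟨γ, rfl⟩ := Finsupp.mem_span_range_iff_exists_finsupp.1 hu
  set u : Fn := γ.sum (fun s a => a • x s) with hudef
  -- coefficients
  have hγ : ∀ s ∈ γ.support, |γ s| ≤ nx u := by
    intro s hs
    have e1 : res (Set.Icc (st s) (st (s + 1) - 1)) u = γ s • x s := by
      rw [hudef, Finsupp.sum, res_sum, Finset.sum_eq_single s]
      · rw [res_smul, res_eq_self]
        intro n hn
        exact hsupp s n hn
      · intro t _ hts
        rw [res_smul, res_eq_zero, smul_zero]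
        intro n hn hn'
        have h6 := hsupp t n hn
        rcases lt_or_gt_of_ne hts with h | h
        · -- t < s
          have h7 : st (t + 1) ≤ st s := hmono.monotone h
          have h8 := hlt t
          have h9 : n ≤ st (t + 1) - 1 := h6.2
          have h10 : st s ≤ n := hn'.1
          omega
        · have h7 : st (s + 1) ≤ st t := hmono.monotone h
          have h8 := hlt s
          have h9 : st t ≤ n := h6.1
          have h10 : n ≤ st (s + 1) - 1 := hn'.2
          omega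
      · intro h
        exact absurd hs h
    have e2 := nx_res (Set.Icc (st s) (st (s + 1) - 1)) u
    rw [e1, nx_smul, h3, mul_one] at e2
    exact e2
  refine ⟨γ.sum (fun s a => a • Y0 (st s) s), ?_, ?_⟩
  · exact Y.sum_mem fun s _ => Y.smul_mem _ (h2 _ _)
  · have e : γ.sum (fun s a => a • Y0 (st s) s) - M.ι u =
        ∑ s ∈ γ.support, γ s • (Y0 (st s) s - M.ι (x s)) := by
      rw [hudef, Finsupp.sum, Finsupp.sum, map_sum, ← Finset.sum_sub_distrib]
      apply Finset.sum_congr rfl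
      intro s _
      rw [map_smul, smul_sub]
    rw [e]
    refine (norm_sum_le _ _).trans ?_
    have hb : ∀ s ∈ γ.support, ‖γ s • (Y0 (st s) s - M.ι (x s))‖ ≤ nx u * (η / 2 / 2 ^ s) := by
      intro s hs
      rw [norm_smul, Real.norm_eq_abs]
      exact mul_le_mul (hγ s hs) (h5 _ _) (norm_nonneg _) (nx_nonneg _)
    refine (Finset.sum_le_sum hb).trans ?_
    rw [← Finset.mul_sum]
    have hgeo : ∑ s ∈ γ.support, η / 2 / 2 ^ s ≤ η := by
      have hs : Summable (fun s : ℕ => η / 2 / 2 ^ s) := summable_geometric_two' η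
      have := hs.sum_le_tsum γ.support (fun s _ => by positivity)
      rwa [tsum_geometric_two' η] at this
    calc nx u * ∑ s ∈ γ.support, η / 2 / 2 ^ s ≤ nx u * η :=
          mul_le_mul_of_nonneg_left hgeo (nx_nonneg _)
      _ = η * nx u := mul_comm _ _

end

end Pool.Agent.Helper67.AC

namespace Pool.Agent.Helper23.AC

section
variable {X : Type} [NormedAddCommGroup X] [NormedSpace ℝ X]

theorem Model.tendsto_P (M : Model X) (x : X) :
    Filter.Tendsto (fun m => M.P m x) Filter.atTop (nhds x) :=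
  Pool.Agent.Helper67.AC.tendsto_P M x

theorem Model.exists_P (M : Model X) (m : ℕ) (x : X) :
    ∃ u : Fn, (∀ n ∈ u.support, n < m) ∧ M.P m x = M.ι u :=
  Pool.Agent.Helper67.AC.exists_P M m x

theorem Model.ker_mem_cof (M : Model X) (m : ℕ) :
    LinearMap.ker (M.P m : X →ₗ[ℝ] X) ∈ Cof X :=
  Pool.Agent.Helper67.AC.ker_mem_cof M m

theorem Model.infinite (M : Model X) : ¬ FiniteDimensional ℝ X :=
  Pool.Agent.Helper67.AC.infinite M

/-- sliding hump -/
theorem Model.exists_blocks (M : Model X) (Y : Submodule ℝ X) (hY : ¬ FiniteDimensional ℝ Y)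
    (η : ℝ) (hη : 0 < η) :
    ∃ (x : ℕ → Fn) (l r : ℕ → ℕ), Blk x l r ∧ (∀ s, nx (x s) = 1) ∧
      ∀ u ∈ Submodule.span ℝ (Set.range x), ∃ y ∈ Y, ‖y - M.ι u‖ ≤ η * nx u :=
  Pool.Agent.Helper67.AC.exists_blocks M Y hY η hη

end

end Pool.Agent.Helper23.AC
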